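import Mathlib

set_option autoImplicit false

namespace Pool.Agent.MP_e9025c_co

open Finset

variable {A : Type} [Fintype A] [DecidableEq A]

/-- the character `o` is compatible with the letter `a` -/
def Ok (o : Option A) (a : A) : Prop := ∀ x, o = some x → a = x

/-- the block of `f` of length `m` at `i` covers `v` -/
def Cov (f : ℕ → Option A) {m : ℕ} (i : ℕ) (v : Fin m → A) : Prop :=
  ∀ j : Fin m, Ok (f (i + j)) (v j)

/-- function form of universality: `L` windows of length `n` -/
def Univ (f : ℕ → Option A) (n L : ℕ) : Prop :=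
  ∀ u : Fin n → A, ∃! i, i < L ∧ Cov f i u

/-- number of letters compatible with a character -/
def wt (o : Option A) : ℕ := if o = none then Fintype.card A else 1

open Classical in
theorem card_ok (o : Option A) : (univ.filter (fun a => Ok o a)).card = wt o := by
  cases o with
  | none => simp [Ok, wt]
  | some x =>
    have : univ.filter (fun a => Ok (some x) a) = {x} := by
      ext a; simp [Ok]
    rw [this]; simp [wt]

omit [Fintype A] [DecidableEq A] in
theorem cov_snoc (f : ℕ → Option A) {m : ℕ} (i : ℕ) (v : Fin m → A) (a : A) :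
    Cov f i (Fin.snoc v a : Fin (m+1) → A) ↔ Cov f i v ∧ Ok (f (i + m)) a := by
  unfold Cov
  rw [Fin.forall_fin_succ']
  simp

omit [Fintype A] [DecidableEq A] in
theorem cov_cons (f : ℕ → Option A) {m : ℕ} (i : ℕ) (v : Fin m → A) (a : A) :
    Cov f i (Fin.cons a v : Fin (m+1) → A) ↔ Cov f (i+1) v ∧ Ok (f i) a := by
  unfold Cov
  rw [Fin.forall_fin_succ]
  simp only [Fin.cons_zero, Fin.cons_succ, Fin.val_zero, add_zero, Fin.val_succ]
  constructor
  · rintro ⟨h1, h2⟩
    exact ⟨fun j => by simpa [add_assoc, add_comm, add_left_comm] using h2 j, h1⟩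
  · rintro ⟨h1, h2⟩
    exact ⟨h2, fun j => by simpa [add_assoc, add_comm, add_left_comm] using h1 j⟩

omit [Fintype A] [DecidableEq A] in
theorem exists_ok [Nonempty A] (o : Option A) : ∃ a, Ok o a := by
  cases o with
  | none => exact ⟨Classical.arbitrary A, fun x h => by cases h⟩
  | some x => exact ⟨x, fun y h => by cases h; rfl⟩

omit [Fintype A] [DecidableEq A] in
theorem exists_cov [Nonempty A] (f : ℕ → Option A) (m i : ℕ) : ∃ v : Fin m → A, Cov f i v := by
  choose g hg using (exists_ok (A := A))
  exact ⟨fun j => g (f (i + j)), fun j => hg _⟩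

open Classical in
theorem count_aux (L : ℕ) (P : ℕ → Prop) (g : ℕ → Option A)
    (h : ∀ a : A, ∃! i, i < L ∧ (P i ∧ Ok (g i) a)) :
    ∑ i ∈ range L, (if P i then wt (g i) else 0) = Fintype.card A := by
  have h1 : ∀ a : A, ∑ i ∈ range L, (if P i ∧ Ok (g i) a then 1 else 0) = 1 := by
    intro a
    obtain ⟨i, ⟨hi, hP⟩, huniq⟩ := h a
    rw [Finset.sum_eq_single i]
    · simp [hP]
    · intro j hj hne
      rw [if_neg]
      intro hj'
      exact hne (huniq j ⟨mem_range.mp hj, hj'⟩)
    · intro hi'
      exact absurd (mem_range.mpr hi) hi'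
  have h2 : Fintype.card A = ∑ a : A, ∑ i ∈ range L, (if P i ∧ Ok (g i) a then 1 else 0) := by
    simp only [h1]; simp
  rw [h2, Finset.sum_comm]
  refine Finset.sum_congr rfl fun i _ => ?_
  by_cases hP : P i
  · simp only [hP, true_and, if_true]
    rw [← card_ok, Finset.card_filter]
  · simp [hP]

theorem wt_pos [Nonempty A] (o : Option A) : 0 < wt o := by
  unfold wt
  split_ifs
  · exact Fintype.card_pos
  · exact one_pos

omit [Fintype A] [DecidableEq A] in
theorem eq_of_cov_iff [Nontrivial A] (f : ℕ → Option A) (m i i' : ℕ)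
    (h : ∀ v : Fin m → A, Cov f i v ↔ Cov f i' v) : ∀ j < m, f (i + j) = f (i' + j) := by
  classical
  have key : ∀ i i' : ℕ, (∀ v : Fin m → A, Cov f i v → Cov f i' v) → ∀ j < m, ∀ x,
      f (i' + j) = some x → f (i + j) = some x := by
    intro i i' h j hj x hx
    by_contra hne
    obtain ⟨v, hv⟩ := exists_cov f m i
    have : ∃ y, y ≠ x ∧ Ok (f (i + j)) y := by
      cases hf : f (i + j) with
      | none =>
        obtain ⟨y, hy⟩ := exists_ne x
        exact ⟨y, hy, fun z hz => by cases hz⟩
      | some y =>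
        refine ⟨y, ?_, fun z hz => by cases hz; rfl⟩
        rintro rfl
        exact hne hf
    obtain ⟨y, hy, hok⟩ := this
    have hc : Cov f i (Function.update v ⟨j, hj⟩ y) := by
      intro t
      by_cases ht : t = ⟨j, hj⟩
      · subst ht; simpa using hok
      · rw [Function.update_of_ne ht]; exact hv t
    have := h _ hc ⟨j, hj⟩ x hx
    simp at this
    exact hy this
  intro j hj
  cases h1 : f (i' + j) with
  | some x => exact key i i' (fun v => (h v).mp) j hj x h1
  | none =>
    cases h2 : f (i + j) with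
    | none => rfl
    | some y =>
      have := key i' i (fun v => (h v).mpr) j hj y h2
      rw [h1] at this; cases this

/-- diamonds periodic with period `m + 1` gives the two end blocks equal -/
theorem pc_of_period [Nontrivial A] (f : ℕ → Option A) (m L : ℕ) (hU : Univ f (m+1) (L+1))
    (hper : ∀ i < L, (f i = none ↔ f (i + 1 + m) = none)) :
    ∀ j < m, f j = f (L + 1 + j) := by
  classical
  have key : ∀ v : Fin m → A, Cov f 0 v ↔ Cov f (L+1) v := by
    intro v
    have hR := count_aux (L+1) (fun i => Cov f i v) (fun i => f (i + m))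
      (fun a => by simpa only [cov_snoc] using hU (Fin.snoc v a))
    have hL := count_aux (L+1) (fun i => Cov f (i+1) v) f
      (fun a => by simpa only [cov_cons] using hU (Fin.cons a v))
    rw [Finset.sum_range_succ'] at hR
    rw [Finset.sum_range_succ] at hL
    have hs : ∑ i ∈ range L, (if Cov f (i+1) v then wt (f (i + 1 + m)) else 0)
        = ∑ i ∈ range L, (if Cov f (i+1) v then wt (f i) else 0) := by
      refine Finset.sum_congr rfl fun i hi => ?_
      have := hper i (mem_range.mp hi)
      simp only [wt, this]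
    have h1 := wt_pos (f (0 + m))
    have h2 := wt_pos (f L)
    constructor
    · intro h0
      by_contra hn
      rw [if_pos h0] at hR
      rw [if_neg hn] at hL
      omega
    · intro h0
      by_contra hn
      rw [if_neg hn] at hR
      rw [if_pos h0] at hL
      omega
  intro j hj
  simpa using eq_of_cov_iff f m 0 (L+1) key j hj

omit [Fintype A] [DecidableEq A] in
theorem period_of_pc [Nontrivial A] (f : ℕ → Option A) (m L : ℕ) (hU : Univ f (m+1) (L+1))
    (hpc : ∀ j < m, f j = f (L + 1 + j)) :
    ∀ i < L, (f i = none ↔ f (i + 1 + m) = none) := by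
  have hc : ∀ v : Fin m → A, Cov f 0 v ↔ Cov f (L+1) v := by
    intro v
    unfold Cov
    refine forall_congr' fun j => ?_
    rw [zero_add, hpc j j.2]
  intro i hi
  obtain ⟨v, hv⟩ := exists_cov f m (i+1)
  constructor
  · intro h0
    by_contra hne
    obtain ⟨b, hb⟩ := Option.ne_none_iff_exists'.mp hne
    obtain ⟨a, ha⟩ := exists_ne b
    obtain ⟨t, ⟨ht, hcov⟩, -⟩ := hU (Fin.snoc v a)
    rw [cov_snoc] at hcov
    have htne : t ≠ i + 1 := by
      rintro rfl
      exact ha (hcov.2 b hb)
    have : ∃ s, s < L + 1 ∧ s ≠ i ∧ Cov f (s+1) v := by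
      rcases t with _ | t
      · exact ⟨L, by omega, by omega, (hc v).mp hcov.1⟩
      · exact ⟨t, by omega, by omega, hcov.1⟩
    obtain ⟨s, hs1, hs2, hs3⟩ := this
    obtain ⟨a', ha'⟩ := exists_ok (f s)
    apply hs2
    refine (hU (Fin.cons a' v)).unique ⟨hs1, ?_⟩ ⟨by omega, ?_⟩
    · rw [cov_cons]; exact ⟨hs3, ha'⟩
    · rw [cov_cons]; exact ⟨hv, fun x hx => by rw [h0] at hx; cases hx⟩
  · intro h0
    by_contra hne
    obtain ⟨b, hb⟩ := Option.ne_none_iff_exists'.mp hne
    obtain ⟨a, ha⟩ := exists_ne b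
    obtain ⟨t, ⟨ht, hcov⟩, -⟩ := hU (Fin.cons a v)
    rw [cov_cons] at hcov
    have htne : t ≠ i := by
      rintro rfl
      exact ha (hcov.2 b hb)
    have : ∃ s, s < L + 1 ∧ s ≠ i + 1 ∧ Cov f s v := by
      by_cases htL : t = L
      · subst htL
        exact ⟨0, by omega, by omega, (hc v).mpr hcov.1⟩
      · exact ⟨t + 1, by omega, by omega, hcov.1⟩
    obtain ⟨s, hs1, hs2, hs3⟩ := this
    obtain ⟨a', ha'⟩ := exists_ok (f (s + m))
    apply hs2
    refine (hU (Fin.snoc v a')).unique ⟨hs1, ?_⟩ ⟨by omega, ?_⟩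
    · rw [cov_snoc]; exact ⟨hs3, ha'⟩
    · rw [cov_snoc]; exact ⟨hv, fun x hx => by rw [h0] at hx; cases hx⟩

/-- number of diamonds in the window of length `n` at `i` -/
def dia (f : ℕ → Option A) (n i : ℕ) : ℕ := ∑ j ∈ range n, if f (i + j) = none then 1 else 0

omit [Fintype A] in
theorem dia_step (f : ℕ → Option A) (m i : ℕ) :
    dia f (m+1) (i+1) + (if f i = none then 1 else 0)
      = dia f (m+1) i + (if f (i + 1 + m) = none then 1 else 0) := by
  unfold dia
  rw [Finset.sum_range_succ, Finset.sum_range_succ' _ m]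
  have : ∑ j ∈ range m, (if f (i + 1 + j) = none then 1 else 0)
      = ∑ j ∈ range m, (if f (i + (j + 1)) = none then 1 else 0) :=
    Finset.sum_congr rfl fun j _ => by rw [add_assoc, add_comm 1 j]
  rw [this, add_zero]
  omega

omit [Fintype A] in
theorem wd_iff_period (f : ℕ → Option A) (m L : ℕ) :
    (∃ d, ∀ i < L + 1, dia f (m+1) i = d) ↔ ∀ i < L, (f i = none ↔ f (i + 1 + m) = none) := by
  constructor
  · rintro ⟨d, hd⟩ i hi
    have h := dia_step f m i
    rw [hd i (by omega), hd (i+1) (by omega)] at h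
    by_cases h1 : f i = none <;> by_cases h2 : f (i + 1 + m) = none <;> simp_all
  · intro h
    refine ⟨dia f (m+1) 0, fun i hi => ?_⟩
    induction i with
    | zero => rfl
    | succ i ih =>
      have h1 := dia_step f m i
      rw [← ih (by omega)]
      simp only [h i (by omega)] at h1
      omega

open Classical in
theorem card_cov (f : ℕ → Option A) (n i : ℕ) :
    (univ.filter (fun u : Fin n → A => Cov f i u)).card = Fintype.card A ^ dia f n i := by
  have : univ.filter (fun u : Fin n → A => Cov f i u)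
      = Fintype.piFinset (fun j : Fin n => univ.filter (fun a => Ok (f (i + j)) a)) := by
    ext u
    rw [Finset.mem_filter, Fintype.mem_piFinset]
    simp only [Finset.mem_filter, Finset.mem_univ, true_and]
    rfl
  rw [this, Fintype.card_piFinset]
  simp only [card_ok]
  rw [dia, ← Finset.prod_pow_eq_pow_sum, Finset.prod_range]
  refine Finset.prod_congr rfl fun j _ => ?_
  unfold wt
  split_ifs <;> simp

theorem pow_le_windows (f : ℕ → Option A) (n L d : ℕ) (hU : Univ f n L)
    (hd : ∀ i < L, dia f n i = d) : Fintype.card A ^ n ≤ L * Fintype.card A ^ d := by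
  classical
  have h1 : (univ : Finset (Fin n → A))
      ⊆ (range L).biUnion (fun i => univ.filter (fun u : Fin n → A => Cov f i u)) := by
    intro u _
    obtain ⟨i, ⟨hi, hc⟩, -⟩ := hU u
    simp only [mem_biUnion, mem_range, mem_filter, mem_univ, true_and]
    exact ⟨i, hi, hc⟩
  have h2 := (card_le_card h1).trans card_biUnion_le
  rw [card_univ, Fintype.card_fun, Fintype.card_fin] at h2
  refine h2.trans (le_of_eq ?_)
  rw [Finset.sum_congr rfl (g := fun _ => Fintype.card A ^ d)]
  · simp
  · intro i hi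
    rw [← hd i (mem_range.mp hi), ← card_cov]

theorem two_pow_ge (k : ℕ) (hk : 1 ≤ k) : k * k + 2 ≤ 2 ^ k + k := by
  induction k, hk using Nat.le_induction with
  | base => norm_num
  | succ k hk ih =>
    have : 3 * k ≤ k * k + 2 := by
      rcases k with _ | _ | k
      · omega
      · omega
      · nlinarith
    rw [pow_succ]
    nlinarith

omit [Fintype A] [DecidableEq A] in
theorem conflict [Nonempty A] (f : ℕ → Option A) (n L δ : ℕ) (hU : Univ f n L)
    (h1 : 0 < δ) (h2 : δ < L) :
    ∃ j < n, ∃ x y, x ≠ y ∧ f j = some x ∧ f (δ + j) = some y := by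
  by_contra hcon
  push Not at hcon
  have : ∀ j : Fin n, ∃ a, Ok (f (0 + j)) a ∧ Ok (f (δ + j)) a := by
    intro j
    rw [zero_add]
    cases ha : f j with
    | none =>
      obtain ⟨a, h⟩ := exists_ok (f (δ + j))
      exact ⟨a, fun x hx => (by cases hx), h⟩
    | some x =>
      refine ⟨x, fun z hz => by cases hz; rfl, fun y hy => ?_⟩
      by_contra hne
      exact hcon j j.2 x y hne ha hy
  choose u hu using this
  have := (hU u).unique ⟨(by omega : 0 < L), fun j => (hu j).1⟩ ⟨h2, fun j => (hu j).2⟩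
  omega

/-- the main new step: a pseudocyclic universal word whose first window has a letter has at
least `m` windows -/
theorem no_overlap [Nontrivial A] (f : ℕ → Option A) (m L : ℕ) (hU : Univ f (m+1) (L+1))
    (hpc : ∀ j < m, f j = f (L + 1 + j)) (hlet : ∃ j < m + 1, f j ≠ none) : m ≤ L + 1 := by
  classical
  by_contra hlt
  push Not at hlt
  obtain ⟨d, hd⟩ := (wd_iff_period f m L).mpr (period_of_pc f m L hU hpc)
  set P : Finset ℕ := (range (m+1)).filter (fun j => f j ≠ none) with hP
  have hk : P.card + d = m + 1 := by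
    rw [← hd 0 (by omega), dia, hP, Finset.card_filter, ← Finset.sum_add_distrib]
    rw [Finset.sum_congr rfl (g := fun _ => 1)]
    · simp
    · intro j _
      rw [zero_add]
      by_cases h : f j = none <;> simp [h]
  have hk1 : 1 ≤ P.card := by
    obtain ⟨j, hj, hne⟩ := hlet
    exact Finset.card_pos.mpr ⟨j, by simp [hP, hne]; omega⟩
  have hL : 2 ^ P.card ≤ L + 1 := by
    have h1 := pow_le_windows f (m+1) (L+1) d hU hd
    rw [← hk, pow_add] at h1
    have h2 : Fintype.card A ^ P.card ≤ L + 1 :=
      Nat.le_of_mul_le_mul_right h1 (pow_pos Fintype.card_pos d)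
    exact (Nat.pow_le_pow_left Fintype.one_lt_card _).trans h2
  have hmod : ∀ t, t < L + 1 + m → f t = f (t % (L+1)) := by
    intro t
    induction t using Nat.strong_induction_on with
    | _ t ih =>
      intro ht
      by_cases h : t < L + 1
      · rw [Nat.mod_eq_of_lt h]
      · obtain ⟨s, rfl⟩ : ∃ s, t = L + 1 + s := ⟨t - (L+1), by omega⟩
        rw [← hpc s (by omega), Nat.add_mod_left]
        exact ih s (by omega) (by omega)
  have hconf : ∀ δ : ℕ, ∃ j : ℕ, 0 < δ → δ < L + 1 →
      j < m + 1 ∧ ∃ x y, x ≠ y ∧ f j = some x ∧ f (δ + j) = some y := by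
    intro δ
    by_cases h : 0 < δ ∧ δ < L + 1
    · obtain ⟨j, hj, h'⟩ := conflict f (m+1) (L+1) δ hU h.1 h.2
      exact ⟨j, fun _ _ => ⟨hj, h'⟩⟩
    · exact ⟨0, fun h1 h2 => absurd ⟨h1, h2⟩ h⟩
  choose J hJ using hconf
  have hinj : (Finset.Ico 1 (L+1)).card ≤ P.offDiag.card := by
    apply Finset.card_le_card_of_injOn (fun δ => (J δ, (δ + J δ) % (L+1)))
    · intro δ hδ
      have hδ' := Finset.mem_Ico.mp (Finset.mem_coe.mp hδ)
      obtain ⟨hj, x, y, hxy, hx, hy⟩ := hJ δ (by omega) hδ'.2
      have hq := hmod (δ + J δ) (by omega)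
      have hlt' : (δ + J δ) % (L+1) < L + 1 := Nat.mod_lt _ (by omega)
      simp only [Finset.coe_offDiag, Set.mem_offDiag, Finset.mem_coe, hP, mem_filter, mem_range]
      refine ⟨⟨hj, by rw [hx]; simp⟩, ⟨by omega, by rw [← hq, hy]; simp⟩, ?_⟩
      intro he
      rw [← he, hx, hy] at hq
      exact hxy (Option.some.inj hq).symm
    · intro δ hδ δ' hδ' he
      have h1 := Finset.mem_Ico.mp (Finset.mem_coe.mp hδ)
      have h2 := Finset.mem_Ico.mp (Finset.mem_coe.mp hδ')
      simp only [Prod.mk.injEq] at he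
      obtain ⟨e1, e2⟩ := he
      rw [← e1] at e2
      have : δ ≡ δ' [MOD (L+1)] := Nat.ModEq.add_right_cancel' (J δ) e2
      exact Nat.ModEq.eq_of_lt_of_lt this h1.2 h2.2
  rw [Nat.card_Ico, Finset.offDiag_card] at hinj
  have h3 := two_pow_ge P.card hk1
  have h4 : P.card ≤ P.card * P.card := Nat.le_mul_self _
  omega

end Pool.Agent.MP_e9025c_co
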