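import Mathlib

/-! Universal words with wild cards. A word with wild cards over `A` is a `List (Option A)`,
where `none` is the diamond. Positions are counted from `0`. -/

set_option autoImplicit false

namespace Pool.Agent.MP_e9025c_co

variable {A : Type}

/-- `u ∈ A^n` is covered by `w` at position `i`: the window `w_{i+1} … w_{i+n}` lies inside `w`
and agrees with `u` at every place where it carries a letter. -/
def CoveredAt (n : ℕ) (w : List (Option A)) (u : Fin n → A) (i : ℕ) : Prop :=
  i + n ≤ w.length ∧ ∀ (j : Fin n) (x : A), w[i + (j : ℕ)]? = some (some x) → u j = x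

/-- every word of `A^n` is covered at exactly one position -/
def IsUniversal (n : ℕ) (w : List (Option A)) : Prop :=
  ∀ u : Fin n → A, ∃! i : ℕ, CoveredAt n w u i

/-- `w` is `◇^n` or contains no diamond -/
def IsTrivial (n : ℕ) (w : List (Option A)) : Prop :=
  w = List.replicate n none ∨ none ∉ w

/-- all windows of length `n` contain the same number of diamonds -/
def WellDefinedDiamondicity [DecidableEq A] (n : ℕ) (w : List (Option A)) : Prop :=
  ∃ d : ℕ, ∀ i : ℕ, i + n ≤ w.length → ((w.drop i).take n).count none = d

/-- the first `n - 1` and the last `n - 1` characters are identical strings -/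
def Pseudocyclic (n : ℕ) (w : List (Option A)) : Prop :=
  w.take (n - 1) = w.drop (w.length - (n - 1))

/-- pseudocyclic, and the two blocks of length `n - 1` do not overlap -/
def Cyclic (n : ℕ) (w : List (Option A)) : Prop :=
  w.take (n - 1) = w.drop (w.length - (n - 1)) ∧ 2 * (n - 1) ≤ w.length

end Pool.Agent.MP_e9025c_co
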