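import Mathlib
import Pool.Agent.MP_e9025c_co.Defs
import Pool.Agent.MP_e9025c_co.Core

set_option autoImplicit false

namespace Pool.Agent.MP_e9025c_co

open Finset

variable {A : Type} [Fintype A] [DecidableEq A]

/-- the word as a function, padded with diamonds -/
def fn (w : List (Option A)) (i : ℕ) : Option A := w.getD i none

omit [Fintype A] [DecidableEq A] in
theorem fn_eq_some (w : List (Option A)) (i : ℕ) (x : A) :
    fn w i = some x ↔ w[i]? = some (some x) := by
  unfold fn
  rw [List.getD_eq_getElem?_getD]
  cases h : w[i]? with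
  | none => simp
  | some o => simp

omit [Fintype A] [DecidableEq A] in
theorem fn_of_lt (w : List (Option A)) (i : ℕ) (h : i < w.length) : fn w i = w[i] := by
  unfold fn
  simp [List.getD_eq_getElem?_getD, h]

omit [Fintype A] in
theorem count_window (w : List (Option A)) (n i : ℕ) (h : i + n ≤ w.length) :
    ((w.drop i).take n).count none = dia (fn w) n i := by
  induction n with
  | zero => simp [dia]
  | succ n ih =>
    have hlt : n < (w.drop i).length := by simp; omega
    rw [List.take_succ_eq_append_getElem hlt, List.count_append, ih (by omega), dia, dia,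
      Finset.sum_range_succ, fn_of_lt w (i + n) (by omega)]
    congr 1
    rw [List.getElem_drop]
    cases w[i + n] <;> simp

omit [Fintype A] [DecidableEq A] in
theorem univ_fn (w : List (Option A)) (m L : ℕ) (hlen : w.length = L + 1 + m)
    (hU : IsUniversal (m+1) w) : Univ (fn w) (m+1) (L+1) := by
  intro u
  have : ∀ i, CoveredAt (m+1) w u i ↔ (i < L + 1 ∧ Cov (fn w) i u) := by
    intro i
    unfold CoveredAt Cov Ok
    simp only [fn_eq_some]
    rw [hlen]
    constructor
    · rintro ⟨h1, h2⟩; exact ⟨by omega, h2⟩
    · rintro ⟨h1, h2⟩; exact ⟨by omega, h2⟩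
  simpa only [this] using hU u

omit [Fintype A] [DecidableEq A] in
theorem pc_fn (w : List (Option A)) (m L : ℕ) (hlen : w.length = L + 1 + m) :
    Pseudocyclic (m+1) w ↔ ∀ j < m, fn w j = fn w (L + 1 + j) := by
  unfold Pseudocyclic
  have e1 : m + 1 - 1 = m := rfl
  have e2 : w.length - m = L + 1 := by omega
  rw [e1, e2]
  constructor
  · intro h j hj
    rw [fn_of_lt w j (by omega), fn_of_lt w (L + 1 + j) (by omega)]
    have h1 : (w.take m)[j]? = (w.drop (L+1))[j]? := by rw [h]
    rw [List.getElem?_take_of_lt hj, List.getElem?_drop,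
      List.getElem?_eq_getElem (by omega), List.getElem?_eq_getElem (by omega)] at h1
    exact Option.some.inj h1
  · intro h
    apply List.ext_getElem
    · simp; omega
    · intro j h1 h2
      have hj : j < m := by simp at h1; omega
      have := h j hj
      rw [fn_of_lt w j (by omega), fn_of_lt w (L + 1 + j) (by omega)] at this
      simpa using this

omit [Fintype A] in
theorem wd_fn (w : List (Option A)) (m L : ℕ) (hlen : w.length = L + 1 + m) :
    WellDefinedDiamondicity (m+1) w ↔ ∃ d, ∀ i < L + 1, dia (fn w) (m+1) i = d := by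
  unfold WellDefinedDiamondicity
  refine exists_congr fun d => forall_congr' fun i => ?_
  constructor
  · intro h hi
    rw [← count_window w (m+1) i (by omega)]
    exact h (by omega)
  · intro h hi
    rw [count_window w (m+1) i hi]
    exact h (by omega)

omit [Fintype A] [DecidableEq A] in
theorem letter_fn [Nonempty A] (w : List (Option A)) (m L : ℕ) (hlen : w.length = L + 1 + m)
    (hU : Univ (fn w) (m+1) (L+1)) (hne : w ≠ List.replicate (m+1) none) :
    ∃ j < m + 1, fn w j ≠ none := by
  by_contra hcon
  push Not at hcon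
  have hL : L = 0 := by
    by_contra hL
    obtain ⟨j, hj, x, y, -, hx, -⟩ := conflict (fn w) (m+1) (L+1) 1 hU one_pos (by omega)
    rw [hcon j hj] at hx
    cases hx
  apply hne
  apply List.ext_getElem
  · simp; omega
  · intro j h1 h2
    rw [← fn_of_lt w j h1, hcon j (by omega)]
    simp

theorem main [Nontrivial A] (n : ℕ) (hn : 1 ≤ n) (w : List (Option A))
    (hU : IsUniversal n w) (hT : ¬ IsTrivial n w) :
    (WellDefinedDiamondicity n w ↔ Pseudocyclic n w) ∧ (Pseudocyclic n w ↔ Cyclic n w) := by
  obtain ⟨m, rfl⟩ : ∃ m, n = m + 1 := ⟨n - 1, by omega⟩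
  obtain ⟨i0, hi0, -⟩ := hU (fun _ => Classical.arbitrary A)
  obtain ⟨L, hlen⟩ : ∃ L, w.length = L + 1 + m := ⟨w.length - (m + 1), by have := hi0.1; omega⟩
  have hU' := univ_fn w m L hlen hU
  constructor
  · rw [wd_fn w m L hlen, pc_fn w m L hlen, wd_iff_period]
    exact ⟨pc_of_period _ m L hU', period_of_pc _ m L hU'⟩
  · constructor
    · intro hpc
      refine ⟨hpc, ?_⟩
      have h1 := no_overlap (fn w) m L hU' ((pc_fn w m L hlen).mp hpc)
        (letter_fn w m L hlen hU' (fun h => hT (Or.inl h)))
      have e1 : m + 1 - 1 = m := rfl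
      rw [e1]
      omega
    · exact fun h => h.1

end Pool.Agent.MP_e9025c_co
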